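import Pool.Agent.Q223.AD.Main

/-!
# The fixed point of `1 → 12122121, 2 → 2` is not `k`-automatic for any `k ≥ 2`

The letters `1` stand at the positions `O(i) = (7 i + Δ(i)) / 3`, where `Δ(i)` is the number of digits
`2` minus the number of digits `1` of `i` in base `4`. Two equal factors of length at least `32 * 4 ^ n`
are aligned in the same way with respect to the blocks of level `n`. If the `k`-kernel were finite, the
aligned blocks of length `k ^ e` would fall into boundedly many classes, and the positions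
`k ^ e * N` of two blocks in one class satisfy `3 * k ^ e * (N' - N) = 7 * 4 ^ n * q + Δ(j') - Δ(j)`
with bounded `j, j'`. If `k` is not a power of two this forces `4 ^ n` to divide
`3 * k ^ e * (N' - N)`, which is impossible for large `e`; if `k` is a power of two it forces
`Δ(j') = Δ(j)`, but infinitely many values of `Δ(j)` occur.
-/

set_option autoImplicit false

namespace Pool.Agent.Results.MP_ad6ded_lc.NotAutomatic

/-- The finite words `x_1 = 12`, `x_{n+1} = x_n x_n x_n^R x_n^R 2` (the value at `0` is not used). -/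
def xWord : ℕ → List ℕ
  | 0 => []
  | 1 => [1, 2]
  | n + 2 => xWord (n + 1) ++ xWord (n + 1) ++ (xWord (n + 1)).reverse ++
      (xWord (n + 1)).reverse ++ [2]

/-- The sequence `a` has every `x_n`, `n ≥ 1`, as a prefix. -/
def HasPrefixes (a : ℕ → ℕ) : Prop :=
  ∀ n, 1 ≤ n → ∀ p, p < (xWord n).length → (xWord n)[p]? = some (a p)

/-- The `k`-kernel of `a`: the set of the sequences `n ↦ a (k ^ e * n + j)` with `0 ≤ j < k ^ e`. -/
def kernel (k : ℕ) (a : ℕ → ℕ) : Set (ℕ → ℕ) :=
  {f | ∃ e j, j < k ^ e ∧ f = fun n => a (k ^ e * n + j)}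

/-- A sequence is `k`-automatic if its `k`-kernel is finite. -/
def IsAutomatic (k : ℕ) (a : ℕ → ℕ) : Prop := (kernel k a).Finite

open Q223.AD

/-- the palindromes `w_n = φ^n(1)` -/
def W : ℕ → List ℕ
  | 0 => [1]
  | n + 1 => W n ++ [2] ++ W n ++ [2, 2] ++ W n ++ [2] ++ W n

theorem W_reverse (n : ℕ) : (W n).reverse = W n := by
  induction n with
  | zero => rfl
  | succ n ih => simp [W, ih]

theorem xWord_eq (n : ℕ) : xWord (n + 1) = W n ++ [2] := by
  induction n with
  | zero => rfl
  | succ n ih =>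
    rw [xWord, ih]
    simp [W, W_reverse]

theorem y_two {i p : ℕ} (h1 : O i < p) (h2 : p < O (i + 1)) : y p = 2 := by
  rcases y_mem p with h | h
  · obtain ⟨j, hj⟩ := y_one.mp h
    rw [← hj] at h1 h2
    have h3 := O_strictMono.lt_iff_lt.mp h1
    have h4 := O_strictMono.lt_iff_lt.mp h2
    omega
  · exact h

theorem W_rep (n : ℕ) : ∀ k, W n ++ List.replicate (g k) 2 =
    (List.Ico (O (4 ^ n * k)) (O (4 ^ n * (k + 1)))).map y := by
  induction n with
  | zero =>
    intro k
    simp only [pow_zero, one_mul]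
    rw [List.Ico.eq_cons (O_lt_succ k), List.map_cons, y_O]
    show 1 :: List.replicate (g k) 2 = _
    congr 1
    symm
    rw [List.eq_replicate_iff]
    constructor
    · rw [List.length_map, List.Ico.length]
      show O k + 1 + g k - (O k + 1) = g k
      omega
    · intro b hb
      obtain ⟨p, hp, rfl⟩ := List.mem_map.mp hb
      rw [List.Ico.mem] at hp
      exact y_two (by omega) hp.2
  | succ n ih =>
    intro k
    have m1 : O (4 ^ (n + 1) * k) ≤ O (4 ^ n * (4 * k + 1)) :=
      O_strictMono.monotone (by rw [pow_succ]; nlinarith [Nat.zero_le (4 ^ n)])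
    have m2 : O (4 ^ n * (4 * k + 1)) ≤ O (4 ^ n * (4 * k + 2)) :=
      O_strictMono.monotone (Nat.mul_le_mul_left _ (by omega))
    have m3 : O (4 ^ n * (4 * k + 2)) ≤ O (4 ^ n * (4 * k + 3)) :=
      O_strictMono.monotone (Nat.mul_le_mul_left _ (by omega))
    have m4 : O (4 ^ n * (4 * k + 3)) ≤ O (4 ^ (n + 1) * (k + 1)) :=
      O_strictMono.monotone (by rw [pow_succ]; nlinarith [Nat.zero_le (4 ^ n)])
    have e0 : 4 ^ (n + 1) * k = 4 ^ n * (4 * k) := by ring
    have e4 : 4 ^ (n + 1) * (k + 1) = 4 ^ n * (4 * k + 3 + 1) := by ring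
    have h0 := ih (4 * k)
    have h1 := ih (4 * k + 1)
    have h2 := ih (4 * k + 2)
    have h3 := ih (4 * k + 3)
    rw [g0] at h0
    rw [g1] at h1
    rw [g2] at h2
    rw [g3, ← e4] at h3
    rw [← e0] at h0
    rw [← List.Ico.append_consecutive m1 (m2.trans (m3.trans m4)),
      ← List.Ico.append_consecutive m2 (m3.trans m4), ← List.Ico.append_consecutive m3 m4,
      List.map_append, List.map_append, List.map_append, ← h0, ← h1, ← h2, ← h3]
    simp [W, List.replicate]

theorem xWord_rep (n : ℕ) : xWord (n + 1) = (List.Ico 0 (O (4 ^ n))).map y := by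
  have h := W_rep n 0
  have e : g 0 = 1 := g0 0
  rw [e, Nat.mul_zero, Nat.zero_add, Nat.mul_one] at h
  rw [xWord_eq]
  exact h

theorem prefixes_y : HasPrefixes y := by
  intro n hn p hp
  obtain ⟨m, rfl⟩ : ∃ m, n = m + 1 := ⟨n - 1, by omega⟩
  rw [xWord_rep] at hp ⊢
  rw [List.length_map, List.Ico.length] at hp
  rw [List.getElem?_map, List.Ico.zero_bot, List.getElem?_range (by omega)]
  rfl

theorem eq_y {a : ℕ → ℕ} (ha : HasPrefixes a) : a = y := by
  funext p
  have h1 : p < (xWord (p + 1)).length := by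
    rw [xWord_rep, List.length_map, List.Ico.length, Nat.sub_zero]
    have h2 := le_O (4 ^ p)
    have h3 : p < 4 ^ p := Nat.lt_pow_self (by norm_num)
    omega
  have h2 := ha (p + 1) (by omega) p h1
  have h3 := prefixes_y (p + 1) (by omega) p h1
  rw [h2] at h3
  exact Option.some.inj h3

/-- There is exactly one sequence that has every word `x_n` as a prefix, and it is not `k`-automatic
for any `k ≥ 2`. -/
theorem result : (∃! a : ℕ → ℕ, HasPrefixes a) ∧
    ∀ a : ℕ → ℕ, HasPrefixes a → ∀ k : ℕ, 2 ≤ k → ¬ IsAutomatic k a := by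
  refine ⟨⟨y, prefixes_y, fun a ha => eq_y ha⟩, fun a ha k hk h => ?_⟩
  rw [eq_y ha] at h
  exact infinite_kernel k hk h

end Pool.Agent.Results.MP_ad6ded_lc.NotAutomatic
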